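import Pool.Agent.LSG.StmtsE

/-!
# Squad LSG, row AT2 (helper90): metrizable groups whose density is attained by a neighbourhood
-/

set_option autoImplicit false

open MeasureTheory Set Topology
open scoped BigOperators Pointwise

namespace Pool.Agent.LSG.H90

/-- `X × ℕ` is a countable sum of copies of `X` -/
def homN (X : Type) [TopologicalSpace X] : (X × ℕ) ≃ₜ (Σ _ : ℕ, X) where
  toFun p := ⟨p.2, p.1⟩
  invFun q := (q.2, q.1)
  left_inv _ := rfl
  right_inv _ := rfl
  continuous_toFun := by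
    rw [continuous_prod_of_discrete_right]
    intro n
    exact continuous_sigmaMk (σ := fun _ : ℕ => X) (i := n)
  continuous_invFun := by
    rw [continuous_sigma_iff]
    intro n
    have h : Continuous fun x : X => (x, n) := continuous_id.prodMk continuous_const
    exact h

/-- reindexing of an infinite power -/
def reL (M S : Type) [AddCommGroup M] [Module ℝ M] [TopologicalSpace M] (e : ℕ × S ≃ S) :
    (S → M) ≃L[ℝ] (ℕ → S → M) where
  toFun f := fun i s => f (e (i, s))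
  invFun F := fun s => F (e.symm s).1 (e.symm s).2
  map_add' _ _ := rfl
  map_smul' _ _ := rfl
  left_inv f := by
    funext s
    simp
  right_inv F := by
    funext i s
    simp
  continuous_toFun := by
    refine continuous_pi fun i => continuous_pi fun j => ?_
    exact continuous_apply _
  continuous_invFun := by
    refine continuous_pi fun s => ?_
    exact (continuous_apply (e.symm s).2).comp (continuous_apply (e.symm s).1)

theorem compl_trans {E F G : Type} [AddCommGroup E] [Module ℝ E] [TopologicalSpace E]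
    [AddCommGroup F] [Module ℝ F] [TopologicalSpace F] [AddCommGroup G] [Module ℝ G]
    [TopologicalSpace G] (h1 : Compl E F) (h2 : Compl F G) : Compl E G := by
  obtain ⟨i, p, h⟩ := h1
  obtain ⟨j, q, h'⟩ := h2
  refine ⟨j.comp i, p.comp q, fun x => ?_⟩
  simp [h, h']

theorem compl_pow {M D S : Type} [AddCommGroup M] [Module ℝ M] [TopologicalSpace M]
    (j : D ↪ S) : Compl (D → M) (S → M) := by
  classical
  refine ⟨ContinuousLinearMap.pi fun s => if h : ∃ d, j d = s then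
    ContinuousLinearMap.proj h.choose else 0,
    ContinuousLinearMap.pi fun d => ContinuousLinearMap.proj (j d), fun x => ?_⟩
  funext d
  have h : ∃ d', j d' = j d := ⟨d, rfl⟩
  have h2 : h.choose = d := j.injective h.choose_spec
  simp only [ContinuousLinearMap.coe_pi', ContinuousLinearMap.proj_apply]
  rw [dif_pos h, ContinuousLinearMap.proj_apply, h2]

theorem at2 (h1 : NpkStmt) (h2 : CvkStmt) (h3 : CckStmt) (h4 : PelStmt) (h5 : CexStmt)
    (h6 : CpeStmt) (h7 : BriStmt) : At2Stmt := by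
  intro H _ _ _ _ V D hV hD hc hinf
  obtain ⟨S, W, hW, hWc, hdisj, hlf, hcov⟩ := h1 H V hV
  have c1 : Compl (S → ↥(Cp W)) ↥(Cp H) := h3 H W S hWc hdisj hlf
  have c2 : Compl ↥(Cp H) (D → ↥(Cp W)) := h2 H W D hW hD
  obtain ⟨j⟩ := (Cardinal.le_def _ _).1 (hc S hcov)
  have c4 : Compl ↥(Cp H) (S → ↥(Cp W)) := compl_trans c2 (compl_pow j)
  have : Infinite S := (hinf S hcov).to_subtype
  obtain ⟨e0⟩ : Nonempty (ℕ × S ≃ S) := by
    rw [← Cardinal.eq]
    rw [Cardinal.mk_prod, Cardinal.lift_id, Cardinal.lift_id, Cardinal.mk_nat,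
      Cardinal.aleph0_mul_mk_eq]
  obtain ⟨e⟩ := (h4 (S → ↥(Cp W)) ↥(Cp H) ⟨reL ↥(Cp W) S e0⟩).1 c1 c4
  have e2 : ↥(Cp H) ≃L[ℝ] (ℕ → ↥(Cp H)) :=
    (e.trans (reL ↥(Cp W) S e0)).trans (ContinuousLinearEquiv.piCongrRight fun _ => e.symm)
  refine ⟨?_, ?_⟩
  · obtain ⟨e3⟩ := h6.1 (H × ℕ) (Σ _ : ℕ, H) ⟨homN H⟩
    obtain ⟨e4⟩ := h6.2.2.1 ℕ (fun _ => H)
    exact (h7.1 H (H × ℕ)).2 ⟨e2.trans (e3.trans e4).symm⟩
  · intro A hA
    have c3 : Compl ↥(Cp A) ↥(Cp H) := h5.1 H A ((h7.2 H A).1 hA)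
    obtain ⟨e3⟩ := (h4 ↥(Cp H) ↥(Cp A) ⟨e2⟩).2 c3
    obtain ⟨e4⟩ := h6.2.1 H A
    exact (h7.1 H (H ⊕ A)).2 ⟨e3.trans e4.symm⟩

end Pool.Agent.LSG.H90
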